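import Pool.Agent.Run7.h994.MC.Cor3
import Pool.Agent.Run7.h462.QA.All

/-!
# One bounded pattern of `k` primes after a positive proportion of the cubes

For every `k ≥ 1` and `ε > 0` there are `D` and `c > 0` such that for all large `N` and all `A` with `N^(5/4 + ε) ≤ A ≤ N²` there is
a set `H` of `k` integers in `[0, D]`, with `0 ∈ H`, such that for at least `c N` of the `n ≤ N` there are at least `c A / (log N)^D`
integers `p` with `n³ < p`, `p + D ≤ n³ + A`, and `p + g` prime for all `g ∈ H`. (For twin primes `H` would be `{0, 2}`. The length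
`n^(5/4 + ε)` is the power `5/12 + ε` of `n³`, far below the distance `3n² + 3n + 1` of the cubes.)

Method. The Maynard-Tao theorem (in the form with the right order of magnitude, project HR of the starting tree) in an
arbitrary set `T` of relative density `κ → 0` in which the integers and the primes are equidistributed in residue classes up to a
small power level; here `T` is the set of the integers with `{v^(1/3) - κ} < κ`: exponential sums over primes in residue classes
with the phases `h p^(1/3)` on average over `h` (Vaughan's identity, double large sieve, van der Corput) with a power saving. The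
clusters found consist of integers free of small prime factors; the upper bound sieve shows that no `n` has too many of them.
-/

set_option autoImplicit false

namespace Pool.Agent.Results.MP_d610d0_nt.BoundedPatterns

open Finset

/-- the integers `p` with `n³ < p`, `p + D ≤ n³ + A` such that all `p + g`, `g ∈ H`, are primes -/
def tuples (H : Finset ℕ) (D A n : ℕ) : Finset ℕ :=
  (Ioc (n ^ 3) (n ^ 3 + A)).filter (fun p => p + D ≤ n ^ 3 + A ∧ ∀ g ∈ H, (p + g).Prime)

theorem result (k : ℕ) (hk : 1 ≤ k) (ε : ℝ) (hε : 0 < ε) : ∃ (D : ℕ) (c : ℝ), 0 < c ∧ ∃ N₀ : ℕ, ∀ N : ℕ, N₀ ≤ N →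
    ∀ A : ℕ, (N : ℝ) ^ (5 / 4 + ε) ≤ A → A ≤ N ^ 2 →
      ∃ H ⊆ range (D + 1), #H = k ∧ 0 ∈ H ∧
        c * N ≤ (#((Icc 1 N).filter (fun n => c * (A / Real.log N ^ D) ≤ (#(tuples H D A n) : ℝ))) : ℝ) := by
  obtain ⟨D, hD, H⟩ := Run7.h994.MC.patterns 3 (by norm_num) k hk ε hε
  obtain ⟨c, hc, N₀, H⟩ := H (Polynomial.X ^ 3) (by simp) (by simp)
  refine ⟨D, c, hc, N₀ + 1, fun N hN A hA1 hA2 => ?_⟩
  obtain ⟨Ht, hH1, hH2, hH3, h1⟩ := H N (by omega) A (by
    rw [Run7.h462.QA.lam_range 3 (by norm_num)]
    refine le_trans (le_of_eq ?_) hA1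
    congr 1
    norm_num) (by
    norm_num
    exact_mod_cast hA2)
  refine ⟨Ht, hH1, hH2, hH3, h1.trans ?_⟩
  apply Nat.cast_le.2
  apply card_le_card
  intro n hn
  rw [mem_filter] at hn ⊢
  refine ⟨hn.1, hn.2.trans ?_⟩
  apply Nat.cast_le.2
  have hev : ∀ a b : ℕ, ((Polynomial.X ^ 3 : Polynomial ℤ).eval (n : ℤ) + (a : ℤ) + (b : ℤ)).toNat = n ^ 3 + a + b := by
    intro a b
    rw [Polynomial.eval_pow, Polynomial.eval_X]
    have : (n : ℤ) ^ 3 + (a : ℤ) + (b : ℤ) = ((n ^ 3 + a + b : ℕ) : ℤ) := by push_cast; ring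
    rw [this, Int.toNat_natCast]
  apply card_le_card_of_injOn (fun a => n ^ 3 + a)
  · intro a ha
    rw [mem_coe] at ha
    unfold Run7.h994.MC.Pt at ha
    rw [mem_filter, mem_Icc] at ha
    obtain ⟨⟨ha1, ha2⟩, hp⟩ := ha
    have goal1 : n ^ 3 + a ∈ tuples Ht D A n := by
      unfold tuples
      rw [mem_filter, mem_Ioc]
      refine ⟨⟨by omega, by omega⟩, by omega, ?_⟩
      intro g hg
      have := hp g hg
      rw [hev] at this
      exact this
    exact goal1
  · intro x _ y _ hxy
    simp only at hxy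
    omega

end Pool.Agent.Results.MP_d610d0_nt.BoundedPatterns
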