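import Mathlib
import Pool.Agent.Run7.h756.CC.PowC

/-!
# Pairs of primes between consecutive cubes: circles containing all but `C` members of EVERY set of shifts

For every `R` there are `C` and `B` such that for all large `N_1, …, N_R` (of very different sizes), every finite
set `V` and any `R` injective maps `f_i` of `V` into `[0, N_i ^ 2 / (log N_i) ^ B]` such that `f_i(V)` misses a
class modulo each prime `p ≤ B`: all members of `V` with at most `C` exceptions can be arranged in `m R` disjoint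
circles (`m 1 = 3`, `m 2 = 10`, `m 3 = 36`) such that for any two neighbours `s`, `t` of a circle and each `i`
the number `d = |f_i(s) - f_i(t)|` has the property: for at least `N_i / (log N_i) ^ B` of the `n ≤ N_i` there are
at least `N_i ^ 2 / (log N_i) ^ B` pairs of primes `(p, p + d)` with `n ^ 3 < p < p + d < (n + 1) ^ 3`.
-/

set_option autoImplicit false

namespace Pool.Agent.Results.MP_d610d0_nt.CirclesBetweenCubes

open Finset Filter
open Pool.Agent.Run7.h756.CC

/-- `T d n` is the number of the pairs of primes `(p, p + d)` with `n ^ 3 < p < p + d < (n + 1) ^ 3`; the `T(n)` of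
the question is `T 2 n`. -/
def T (d n : ℕ) : ℕ := ((Ioo (n ^ 3) ((n + 1) ^ 3)).filter (fun p : ℕ =>
  p.Prime ∧ (p + d).Prime ∧ p < p + d ∧ p + d < (n + 1) ^ 3)).card

/-- the distance of two numbers -/
def dist (x y : ℕ) : ℕ := max x y - min x y

/-- `m 0 = 1` and `m (R + 1) = ⌊18 * m R / 5⌋`: the numbers `1, 3, 10, 36, 129, ...` -/
def m : ℕ → ℕ
  | 0 => 1
  | R + 1 => 18 * m R / 5

theorem m_eq (R : ℕ) : m R = Pool.Agent.R493.SI.mR R := by
  induction R with
  | zero => rfl
  | succ R ih =>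
    show 18 * m R / 5 = 18 * Pool.Agent.R493.SI.mR R / 5
    rw [ih]

/-- All members of `V` with at most `C` exceptions are arranged in `D` disjoint circles (lists without
repetitions, read cyclically) such that any two neighbours have the (symmetric) relation `adj`. -/
def Circles (V : Finset ℕ) (D C : ℕ) (adj : ℕ → ℕ → Prop) : Prop :=
  ∃ e : Fin D → List ℕ, (∀ i, (e i).Nodup) ∧ (∀ i j, i ≠ j → List.Disjoint (e i) (e j)) ∧
    (∀ i, ∀ v ∈ e i, v ∈ V) ∧ (V.filter (fun v => ∀ i, v ∉ e i)).card ≤ C ∧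
    ∀ i j, ∀ s ∈ ((e i).rotate j).take 2, ∀ t ∈ ((e i).rotate j).take 2, s ≠ t → adj s t

theorem inside_le {s t n : ℕ} (F : Finset ℕ) (hs : s ∈ F) (ht : t ∈ F) (h : s < t) :
    (inside F 3 n).card ≤ T (t - s) n := by
  unfold inside T
  rw [← card_image_of_injective (f := fun x : ℕ => x + s) _ (by
    intro a b hab
    simp only at hab
    omega)]
  apply card_le_card
  intro x hx
  obtain ⟨y, hy, rfl⟩ := mem_image.1 hx
  obtain ⟨h1, h2⟩ := mem_filter.1 hy
  rw [mem_Ioo] at h1
  have h3 := h2 s hs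
  have h4 := h2 t ht
  have e1 : y + s + (t - s) = y + t := by omega
  refine mem_filter.2 ⟨mem_Ioo.2 ⟨by omega, h3.2⟩, h3.1, by rw [e1]; exact h4.1, by omega, by rw [e1]; exact h4.2⟩

/-- **Circles of pairs between consecutive cubes.** -/
theorem result (R : ℕ) : ∃ C B N₀ : ℕ, ∀ N : Fin R → ℕ, (∀ i, N₀ ≤ N i) →
    ∀ (V : Finset ℕ) (f : Fin R → ℕ → ℕ), (∀ i, Set.InjOn (f i) V) →
    (∀ i, ∀ v ∈ V, (f i v : ℝ) ≤ (N i : ℝ) ^ 2 / (Real.log (N i)) ^ B) →
    (∀ i, ∀ p : ℕ, p.Prime → p ≤ B → ∃ c : ℕ, ∀ v ∈ V, ¬ f i v ≡ c [MOD p]) →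
    Circles V (m R) C (fun s t => ∀ i, (N i : ℝ) / (Real.log (N i)) ^ B ≤
      (((Icc 1 (N i)).filter (fun n => (N i : ℝ) ^ 2 / (Real.log (N i)) ^ B ≤
        (T (dist (f i s) (f i t)) n : ℝ))).card : ℝ)) := by
  classical
  obtain ⟨C, B, h⟩ := pow_circles R 2 (by norm_num)
  obtain ⟨N₀, h⟩ := h (fun _ => 3) (fun _ => by norm_num)
  refine ⟨C, B, N₀, fun N hN V f hf hle hloc => ?_⟩
  obtain ⟨e, he1, he2, he3, he4, he5⟩ := h N hN V f hf hle hloc
  rw [m_eq]
  refine ⟨e, he1, he2, he3, he4, fun i j s hs t ht hst ρ => ?_⟩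
  have hne : e i ≠ [] := by
    intro h0
    rw [h0] at hs
    simp at hs
  refine (he5 i j hne ρ).trans ?_
  rw [Nat.cast_le]
  apply card_le_card
  intro n hn
  obtain ⟨h1, h2⟩ := mem_filter.1 hn
  refine mem_filter.2 ⟨h1, h2.trans ?_⟩
  rw [Nat.cast_le]
  have hmem : ∀ v ∈ ((e i).rotate j).take 2, v ∈ V := fun v hv =>
    he3 i v (List.mem_rotate.1 (List.mem_of_mem_take hv))
  have hsF : f ρ s ∈ ((((e i).rotate j).take 2).toFinset).image (f ρ) :=
    mem_image_of_mem _ (List.mem_toFinset.2 hs)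
  have htF : f ρ t ∈ ((((e i).rotate j).take 2).toFinset).image (f ρ) :=
    mem_image_of_mem _ (List.mem_toFinset.2 ht)
  have hne' : f ρ s ≠ f ρ t := fun h => hst (hf ρ (hmem s hs) (hmem t ht) h)
  unfold dist
  rcases lt_or_gt_of_ne hne' with h3 | h3
  · rw [max_eq_right h3.le, min_eq_left h3.le]
    exact inside_le _ hsF htF h3
  · rw [max_eq_left h3.le, min_eq_right h3.le]
    exact inside_le _ htF hsF h3

end Pool.Agent.Results.MP_d610d0_nt.CirclesBetweenCubes
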