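import Mathlib
import Pool.Agent.Run7.h462.LW.All

/-!
# Consecutive elements with prescribed differences in dense sets of primes between consecutive cubes

`T` is any set of primes (or of integers without prime factors `≤ n^κ`) between `n^3` and `(n+1)^3` with at least `δ n^2 / log n` elements,
`n` is any large integer. A positive proportion of ALL vectors `0 = D_0 < D_1 < ... < D_m ≤ B log n` of differences occur
`≥ c n^2 / (log n)^(m+1)` times (the right order of magnitude) between `m + 1` consecutive elements of `T`. For almost all `n` the set `T` may be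
the set of all primes in between.
-/

set_option autoImplicit false

namespace Pool.Agent.Results.MP_d610d0_nt.ConsecutiveElementsShortWindows

open Finset

open Classical in
/-- the number of the `t` for which `t = t + D_0, t + D_1, ..., t + D_m` are consecutive elements of `T` (for increasing `D` with `D_0 = 0`) -/
noncomputable def consecutive {m : ℕ} (T : Finset ℕ) (D : Fin (m + 1) → ℕ) : ℕ :=
  #(T.filter (fun t => (∀ i, t + D i ∈ T) ∧ ∀ u ∈ T, t ≤ u → (∃ i, u ≤ t + D i) → ∃ i, u = t + D i))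

/-- the primes between `n^3` and `(n+1)^3` -/
def primesBetween (n : ℕ) : Finset ℕ := (Ioo (n ^ 3) ((n + 1) ^ 3)).filter Nat.Prime

/-- (1) for every large `n` and every dense set `T`; (2) for almost all `n` and all primes between `n^3` and `(n+1)^3` -/
theorem result (m : ℕ) :
    (∀ κ δ : ℝ, 0 < κ → 0 < δ → ∃ c B : ℝ, 0 < c ∧ 0 < B ∧ ∃ N₀ : ℕ, ∀ n : ℕ, N₀ ≤ n →
      ∀ T ⊆ Ioo (n ^ 3) ((n + 1) ^ 3), (∀ t ∈ T, ∀ p : ℕ, p.Prime → (p : ℝ) ≤ (n : ℝ) ^ κ → ¬ p ∣ t) →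
      δ * ((n : ℝ) ^ 2 / Real.log n) ≤ #T →
      ∃ G : Finset (Fin (m + 1) → ℕ), c * Real.log n ^ m ≤ #G ∧
        ∀ D ∈ G, StrictMono D ∧ D 0 = 0 ∧ (∀ i, (D i : ℝ) ≤ B * Real.log n) ∧
          c * ((n : ℝ) ^ 2 / Real.log n ^ (m + 1)) ≤ consecutive T D) ∧
    (∃ c B : ℝ, 0 < c ∧ 0 < B ∧ ∀ U : ℕ, ∃ X₀ : ℕ, ∀ X : ℕ, X₀ ≤ X → ∃ E : Finset ℕ, (#E : ℝ) ≤ X / Real.log X ^ U ∧
      ∀ n : ℕ, n ≤ X → n ∉ E →
      ∃ G : Finset (Fin (m + 1) → ℕ), c * Real.log n ^ m ≤ #G ∧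
        ∀ D ∈ G, StrictMono D ∧ D 0 = 0 ∧ (∀ i, (D i : ℝ) ≤ B * Real.log n) ∧
          c * ((n : ℝ) ^ 2 / Real.log n ^ (m + 1)) ≤ consecutive (primesBetween n) D) :=
  ⟨fun κ δ hκ hδ => Run7.h462.LW.allB 2 m (by norm_num) κ δ hκ hδ, Run7.h462.LW.allPrimesB 2 m (by norm_num)⟩

end Pool.Agent.Results.MP_d610d0_nt.ConsecutiveElementsShortWindows
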