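import Mathlib
import Pool.Agent.Run7.h337.MK.Pairs
import Pool.Agent.Run7.h880.MK.Maj1
import Pool.Agent.Run7.h794.MK.SiaAll

/-!
# Pairs of primes between almost all pairs of consecutive cubes, with differences from every flat family
-/

set_option autoImplicit false

namespace Pool.Agent.Results.MP_d610d0_nt.PairsBetweenCubes

open Finset
open Pool.Agent.N384.MQ (Flat)
open Run7.h337.MK (pairCount primesBetween)

theorem result (T U : ℕ) (ε : ℝ) (hε : 0 < ε) (hε1 : ε ≤ 1) :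
    ∃ V C D X₀ : ℕ, ∀ X : ℕ, X₀ ≤ X →
    ∃ E : Finset ℕ, (E.card : ℝ) ≤ X / Real.log X ^ U ∧ ∀ n : ℕ, 1 ≤ n → n ≤ X → n ∉ E →
    ∀ (q : ℕ) [NeZero q], (X : ℝ) * Real.log X ^ C ≤ q → (q : ℝ) * Real.log X ^ D ≤ (n : ℝ) ^ 2 →
    ∀ {ι : Type} (s : Finset ι) (y : ι → ZMod q), s.Nonempty → Flat q (1 / Real.log X ^ V) s y →
    ∀ κ : ℤ, κ ≠ 0 → (κ.natAbs : ℝ) ≤ Real.log X ^ T →
      (∃ F : Finset ℕ, (F.card : ℝ) ≤ (n : ℝ) ^ 2 / Real.log X ^ U ∧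
      ∀ m ∈ Ioo (n ^ 3) ((n + 1) ^ 3), m ∉ F →
        (∀ i, ((n ^ 3 : ℕ) : ℤ) < m + κ * ((y i).val : ℕ) ∧ m + κ * ((y i).val : ℕ) < (((n + 1) ^ 3 : ℕ) : ℤ)) ∧
        (IsCoprime (m : ℤ) κ →
        |((s.filter fun i => ((m : ℤ) + κ * ((y i).val : ℕ)).toNat.Prime).card : ℝ) -
          κ.natAbs / (Nat.totient κ.natAbs : ℝ) * (s.card / (3 * Real.log n))| ≤
          ε * (κ.natAbs / (Nat.totient κ.natAbs : ℝ) * (s.card / (3 * Real.log n))))) ∧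
      (∀ P ⊆ Ioo (n ^ 3) ((n + 1) ^ 3), (∀ m ∈ P, IsCoprime (m : ℤ) κ) →
        (n : ℝ) ^ 2 / Real.log X ^ T ≤ P.card →
        |(pairCount (n ^ 3) ((n + 1) ^ 3) κ y s P : ℝ) -
          κ.natAbs / (Nat.totient κ.natAbs : ℝ) * (P.card * s.card / (3 * Real.log n))| ≤
          ε * (κ.natAbs / (Nat.totient κ.natAbs : ℝ) * (P.card * s.card / (3 * Real.log n)))) ∧
      |(pairCount (n ^ 3) ((n + 1) ^ 3) κ y s (primesBetween (n ^ 3) ((n + 1) ^ 3)) : ℝ) -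
          κ.natAbs / (Nat.totient κ.natAbs : ℝ) * (s.card * (n : ℝ) ^ 2 / (3 * Real.log n ^ 2))| ≤
          ε * (κ.natAbs / (Nat.totient κ.natAbs : ℝ) * (s.card * (n : ℝ) ^ 2 / (3 * Real.log n ^ 2))) := by
  obtain ⟨V, C, D, X₀, h⟩ := Run7.h337.MK.pow_pairs
    (Pool.Agent.Run7.h880.MK.t_MAJ1 Pool.Agent.Run7.h794.MK.sia_all) 2 (by norm_num) T U ε hε hε1
  refine ⟨V, C, D, X₀, fun X hX => ?_⟩
  obtain ⟨E, hE, h2⟩ := h X hX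
  refine ⟨E, hE, fun n hn1 hnX hnE q _ hq1 hq2 ι s y hs hy κ hκ hκT => ?_⟩
  have e1 : (X : ℝ) ^ (((2 + 1 : ℕ) : ℝ) / 3) = X := by
    norm_num
  have e2 : (((2 : ℕ) : ℝ) + 1) = 3 := by norm_num
  have h3 := h2 n hn1 hnX hnE q (by rw [e1]; exact hq1) hq2 s y hs hy κ hκ hκT
  rw [e2] at h3
  exact h3

end Pool.Agent.Results.MP_d610d0_nt.PairsBetweenCubes
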